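import Mathlib
import Pool.Agent.NG.Main

/-!
# The naive gluing conjecture for composition algebras of marked surfaces is false

The counterexample is the torus with one boundary component and four marked intervals, with the
full arc system of eight arcs `b0, b1, b2, b3` (boundary arcs), `x0, x1, x2, x3` which cuts it into
three quadrilaterals `(b0, x2, x1, x0)`, `(b1, x2, x3, x0)`, `(b2, x1, b3, x3)` (sides in clockwise
order; arcs with the same name are glued).  Every quadrilateral meets each of the four marked
intervals exactly once.

The arcs `x2` and `b3` commute in `f(S, A)` but not in `n(S, A)`: there is a homomorphism from
`n(S, A)` to the algebra of `2 × 2` matrices over `f(S, A)` under which their images do not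
commute.

Definitions (all in `Pool/Agent/NG`):
* `ArcSystem` (file `Arc.lean`): finitary marked surfaces with a full arc system and with enough
  marked intervals, given by the polygons cut out by the arcs (each with a boundary arc `side D 0`);
  `BP`: the category of boundary paths between the arcs other than the `side D 0`;
* `Fuk`, `arcObj` (file `Fuk.lean`): the topological Fukaya category, for the grading such that the
  corners between arcs other than the `side D 0` have degree zero, and the arcs as objects of it;
* `toen`, `eul` (file `TDefs.lean`), `DHa` (file `Hall.lean`): the derived Hall algebra (Toën's
  structure constants), twisted by the Euler form; its associativity is proved;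
* `Comp`, `DComp`, `Naive`, `carc`, `narc` (file `Naive.lean`): the composition subalgebra
  `f(S, A)`, the composition algebras of the disks, the naive algebra `n(S, A)`, and the classes of
  the suspensions of the arcs in `f(S, A)` and `n(S, A)`.
-/

namespace Pool.Agent.Results.MP_a51479_al.NotInjective

open Pool.Agent.NG

/-- There is a marked surface with a full arc system and with enough marked intervals for which the
comparison homomorphism `γ : n(S, A) → f(S, A)` (which exists and is surjective) has a nonzero
kernel, over every finite field `k` and for every coefficient field `K` of characteristic zero. -/
theorem result : ∃ S : ArcSystem, ∀ (k : Type) [Field k] [Finite k] (K : Type) [Field K]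
    [CharZero K], ∃ γ : S.Naive k K →ₐ[K] S.CompT k K,
      (∀ D i m, γ (S.narc k K D i m) = S.carc k K D i m) ∧ Function.Surjective γ ∧
        ¬ Function.Injective γ := main

end Pool.Agent.Results.MP_a51479_al.NotInjective
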